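import Mathlib
import Pool.Agent.H29.GoodSub

set_option autoImplicit false

namespace Pool.Agent.Results.MP_be1d92_co.Unbounded

open Pool.Agent.H29.GoodSub

theorem result : ∀ N : ℕ, ∃ (P : Type) (_ : PartialOrder P),
    ChainComplete P ∧ NoInfAntichain P ∧ (N : ℕ∞) < gamma P :=
  fun N => ⟨Ex (2 * N), inferInstance, fun C h1 h2 => ⟨lub _ C h1 h2, glb _ C h1 h2⟩,
    noInf _, main N⟩

end Pool.Agent.Results.MP_be1d92_co.Unbounded
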